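import Mathlib

set_option autoImplicit false

namespace Pool.Agent.H.MP_ecb7d4_gt

open Real Finset

abbrev Sq := ℕ → Fin 4

def sh {X : Type} (a : ℕ → X) : ℕ → X := fun i => a (i + 1)

lemma od_step {b : ℕ} (a : ℕ → Fin b) : ofDigits a = (ofDigits (sh a) + (a 0 : ℕ)) / b := by
  rw [ofDigits_eq_sum_add_ofDigits a 1]
  simp only [ofDigitsTerm, range_one, sum_singleton, zero_add, pow_one]
  unfold sh
  ring

noncomputable def w0 : ℝ := 511 / 1024

noncomputable def w (j : Fin 4) : ℝ := ![w0, 1 / 1024, 1 / 1024, w0] j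

noncomputable def cum (j : Fin 4) : ℝ := ![0, w0, 1 / 2, 513 / 1024] j

noncomputable def W (k : ℕ) (a : Sq) : ℝ := ∏ i ∈ range k, w (a i)

noncomputable def F (a : Sq) : ℝ := ∑' k, W k a * cum (a k)

lemma w_ge (j : Fin 4) : 1 / 1024 ≤ w j := by fin_cases j <;> simp [w, w0] <;> norm_num
lemma w_le (j : Fin 4) : w j ≤ w0 := by fin_cases j <;> simp [w, w0] <;> norm_num
lemma w_pos (j : Fin 4) : 0 < w j := lt_of_lt_of_le (by norm_num) (w_ge j)
lemma w0_pos : 0 < w0 := by norm_num [w0]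
lemma w0_le : w0 ≤ 1 / 2 := by norm_num [w0]
lemma cum_nonneg (j : Fin 4) : 0 ≤ cum j := by fin_cases j <;> simp [cum, w0] <;> norm_num
lemma cum_add (j : Fin 4) : cum j + w j ≤ 1 := by fin_cases j <;> simp [cum, w, w0] <;> norm_num

lemma W_pos (k : ℕ) (a : Sq) : 0 < W k a := prod_pos fun _ _ => w_pos _

lemma W_succ (k : ℕ) (a : Sq) : W (k + 1) a = W k a * w (a k) := prod_range_succ _ _

lemma W_succ' (k : ℕ) (a : Sq) : W (k + 1) a = w (a 0) * W k (sh a) := by
  rw [W, prod_range_succ', mul_comm]; rfl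

lemma W_add_le (k j : ℕ) (a : Sq) : W (k + j) a ≤ w0 ^ j * W k a := by
  induction j with
  | zero => simp
  | succ j ih =>
    rw [← add_assoc, W_succ, pow_succ]
    nlinarith [mul_le_mul ih (w_le (a (k + j))) (w_pos _).le
      (mul_pos (pow_pos w0_pos j) (W_pos k a)).le]

lemma W_add_ge (k j : ℕ) (a : Sq) : W k a ≤ 1024 ^ j * W (k + j) a := by
  induction j with
  | zero => simp
  | succ j ih =>
    rw [← add_assoc, W_succ, pow_succ]
    have := mul_le_mul_of_nonneg_left (w_ge (a (k + j)))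
      (mul_pos (pow_pos (show (0 : ℝ) < 1024 by norm_num) j) (W_pos (k + j) a)).le
    nlinarith

lemma W_le (k : ℕ) (a : Sq) : W k a ≤ w0 ^ k := by simpa [W] using W_add_le 0 k a

lemma W_anti {k k' : ℕ} (h : k ≤ k') (a : Sq) : W k' a ≤ W k a := by
  obtain ⟨j, rfl⟩ := Nat.exists_eq_add_of_le h
  exact (W_add_le k j a).trans (mul_le_of_le_one_left (W_pos _ _).le
    (pow_le_one₀ w0_pos.le (w0_le.trans (by norm_num))))

lemma F_summ (a : Sq) : Summable fun k => W k a * cum (a k) := by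
  refine Summable.of_nonneg_of_le (fun k => mul_nonneg (W_pos _ _).le (cum_nonneg _)) (fun k => ?_)
    (summable_geometric_of_lt_one w0_pos.le (w0_le.trans_lt (by norm_num)))
  exact (mul_le_of_le_one_right (W_pos _ _).le (by linarith [cum_add (a k), w_pos (a k)])).trans
    (W_le k a)

lemma F_step (a : Sq) : F a = cum (a 0) + w (a 0) * F (sh a) := by
  rw [F, (F_summ a).tsum_eq_zero_add, F, ← tsum_mul_left]
  congr 1
  · simp [W]
  · refine tsum_congr fun k => ?_
    rw [W_succ', mul_assoc]; rfl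

lemma F_nonneg (a : Sq) : 0 ≤ F a := tsum_nonneg fun _ => mul_nonneg (W_pos _ _).le (cum_nonneg _)

lemma F_le (a : Sq) : F a ≤ 1 := by
  refine (F_summ a).tsum_le_of_sum_range_le fun k => ?_
  have : ∑ i ∈ range k, W i a * cum (a i) + W k a ≤ 1 := by
    induction k with
    | zero => simp [W]
    | succ k ih =>
      rw [sum_range_succ, W_succ]
      nlinarith [mul_le_mul_of_nonneg_left (cum_add (a k)) (W_pos k a).le]
  linarith [W_pos k a]

lemma V0 (a : Sq) : 0 ≤ ofDigits a := ofDigits_nonneg a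
lemma V1 (a : Sq) : ofDigits a ≤ 1 := ofDigits_le_one a

lemma V_step (a : Sq) : 4 * ofDigits a = ofDigits (sh a) + (a 0 : ℕ) := by
  rw [od_step a]; push_cast; ring

lemma dig (j : Fin 4) : j = 0 ∧ ((j : ℕ) : ℝ) = 0 ∧ w j = w0 ∧ cum j = 0 ∨
    j = 1 ∧ ((j : ℕ) : ℝ) = 1 ∧ w j = 1 / 1024 ∧ cum j = w0 ∨
    j = 2 ∧ ((j : ℕ) : ℝ) = 2 ∧ w j = 1 / 1024 ∧ cum j = 1 / 2 ∨
    j = 3 ∧ ((j : ℕ) : ℝ) = 3 ∧ w j = w0 ∧ cum j = 513 / 1024 := by
  fin_cases j <;> simp [w, cum]

lemma q_le (k : ℕ) : (1 / 4 : ℝ) ^ k ≤ 1 := pow_le_one₀ (by norm_num) (by norm_num)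
lemma q_pos (k : ℕ) : 0 < (1 / 4 : ℝ) ^ k := by positivity

lemma E0 (k : ℕ) : ∀ a : Sq, ofDigits a < (1 / 4) ^ k → F a ≤ w0 ^ k ∧ W k a = w0 ^ k := by
  induction k with
  | zero => intro a _; exact ⟨by simpa using F_le a, by simp [W]⟩
  | succ k ih =>
    intro a h
    have h1 := V_step a
    have := V0 (sh a)
    have := q_le k
    rw [pow_succ] at h
    rcases dig (a 0) with ⟨-, e1, e2, e3⟩ | ⟨-, e1, -⟩ | ⟨-, e1, -⟩ | ⟨-, e1, -⟩
    · obtain ⟨i1, i2⟩ := ih (sh a) (by linarith)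
      rw [F_step, W_succ', e2, e3, i2, pow_succ']
      exact ⟨by nlinarith [w0_pos], rfl⟩
    all_goals linarith

lemma E1 (k : ℕ) : ∀ a : Sq, 1 - ofDigits a < (1 / 4) ^ k →
    1 - F a ≤ w0 ^ k ∧ W k a = w0 ^ k := by
  induction k with
  | zero => intro a _; exact ⟨by simpa using F_nonneg a, by simp [W]⟩
  | succ k ih =>
    intro a h
    have h1 := V_step a
    have := V1 (sh a)
    have := q_le k
    rw [pow_succ] at h
    rcases dig (a 0) with ⟨-, e1, -⟩ | ⟨-, e1, -⟩ | ⟨-, e1, -⟩ | ⟨-, e1, e2, e3⟩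
    rotate_left 3
    · obtain ⟨i1, i2⟩ := ih (sh a) (by linarith)
      rw [F_step, W_succ', e2, e3, i2, pow_succ']
      refine ⟨?_, rfl⟩
      have := mul_le_mul_of_nonneg_left i1 w0_pos.le
      have : w0 = 511 / 1024 := rfl
      linarith
    all_goals linarith

lemma p_le (k : ℕ) : w0 ^ k ≤ 1 := pow_le_one₀ w0_pos.le (w0_le.trans (by norm_num))

lemma G0 (k : ℕ) : ∀ a : Sq, (1 / 4) ^ k ≤ ofDigits a → w0 ^ (k + 1) ≤ F a := by
  have key : ∀ (k : ℕ) (a : Sq), a 0 ≠ 0 → w0 ^ (k + 1) ≤ F a := by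
    intro k a h
    have := mul_nonneg (w_pos (a 0)).le (F_nonneg (sh a))
    have h2 := mul_le_mul_of_nonneg_left (p_le k) w0_pos.le
    have : w0 = 511 / 1024 := rfl
    rw [F_step, pow_succ']
    rcases dig (a 0) with ⟨e, -⟩ | ⟨-, -, -, e⟩ | ⟨-, -, -, e⟩ | ⟨-, -, -, e⟩
    · exact absurd e h
    all_goals linarith
  induction k with
  | zero =>
    intro a h
    refine key 0 a fun h0 => ?_
    have h1 := V_step a
    have := V1 (sh a)
    rw [h0] at h1
    simp at h1 h
    linarith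
  | succ k ih =>
    intro a h
    by_cases h0 : a 0 = 0
    · have h1 := V_step a
      rw [F_step, h0, pow_succ' w0]
      rw [h0] at h1
      simp only [Fin.val_zero, Nat.cast_zero, add_zero] at h1
      rw [pow_succ] at h
      have := mul_le_mul_of_nonneg_left (ih (sh a) (by linarith)) w0_pos.le
      simpa [cum, w] using this
    · exact key _ a h0

lemma G1 (k : ℕ) : ∀ a : Sq, (1 / 4) ^ k ≤ 1 - ofDigits a → w0 ^ (k + 1) ≤ 1 - F a := by
  have key : ∀ (k : ℕ) (a : Sq), a 0 ≠ 3 → w0 ^ (k + 1) ≤ 1 - F a := by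
    intro k a h
    have := mul_le_mul_of_nonneg_left (F_le (sh a)) (w_pos (a 0)).le
    have h2 := mul_le_mul_of_nonneg_left (p_le k) w0_pos.le
    have : w0 = 511 / 1024 := rfl
    rw [F_step, pow_succ']
    rcases dig (a 0) with ⟨-, -, e', e⟩ | ⟨-, -, e', e⟩ | ⟨-, -, e', e⟩ | ⟨e, -⟩
    rotate_left 3
    · exact absurd e h
    all_goals linarith
  induction k with
  | zero =>
    intro a h
    refine key 0 a fun h0 => ?_
    have h1 := V_step a
    have := V0 (sh a)
    rw [h0] at h1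
    simp at h1 h
    linarith
  | succ k ih =>
    intro a h
    by_cases h0 : a 0 = 3
    · have h1 := V_step a
      rw [F_step, h0, pow_succ' w0]
      rw [h0] at h1
      have e : (((3 : Fin 4) : ℕ) : ℝ) = 3 := by simp
      rw [e] at h1
      rw [pow_succ] at h
      have := mul_le_mul_of_nonneg_left (ih (sh a) (by linarith)) w0_pos.le
      have : w0 = 511 / 1024 := rfl
      have e2 : cum 3 = 513 / 1024 := rfl
      have e3 : w 3 = w0 := rfl
      rw [e2, e3]
      linarith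
    · exact key _ a h0

lemma cum_adj {i j : Fin 4} (h : (i : ℕ) + 1 = j) : cum j = cum i + w i := by
  fin_cases i <;> fin_cases j <;> simp_all [cum, w, w0] <;> norm_num

lemma cum_far {i j : Fin 4} (h : (i : ℕ) + 2 ≤ j) : cum i + w i + 1 / 1024 ≤ cum j := by
  fin_cases i <;> fin_cases j <;> simp_all [cum, w, w0] <;> norm_num

lemma adj {k : ℕ} {a b : Sq} (h : (a 0 : ℕ) < b 0)
    (h2 : ofDigits b - ofDigits a < (1 / 4) ^ (k + 1)) :
    |F a - F b| ≤ w0 ^ k ∧ W k (sh a) = w0 ^ k ∧ W k (sh b) = w0 ^ k := by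
  have a1 := V_step a
  have b1 := V_step b
  have := V1 (sh a)
  have := V0 (sh b)
  have := q_le k
  rw [pow_succ] at h2
  have h3 : (a 0 : ℕ) + 1 = b 0 := by
    by_contra h3
    have : (((a 0 : ℕ) + 2 : ℕ) : ℝ) ≤ (b 0 : ℕ) := by exact_mod_cast (by omega)
    push_cast at this
    linarith
  have h4 : (((a 0 : ℕ) + 1 : ℕ) : ℝ) = (b 0 : ℕ) := by exact_mod_cast h3
  push_cast at h4
  obtain ⟨i1, i2⟩ := E1 k (sh a) (by linarith)
  obtain ⟨j1, j2⟩ := E0 k (sh b) (by linarith)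
  refine ⟨?_, i2, j2⟩
  rw [F_step a, F_step b, cum_adj h3]
  have s1 := mul_le_mul ((w_le (a 0)).trans w0_le) i1 (sub_nonneg.mpr (F_le _)) (by norm_num)
  have s2 := mul_le_mul ((w_le (b 0)).trans w0_le) j1 (F_nonneg _) (by norm_num)
  have s3 := mul_nonneg (w_pos (a 0)).le (sub_nonneg.mpr (F_le (sh a)))
  have s4 := mul_nonneg (w_pos (b 0)).le (F_nonneg (sh b))
  rw [abs_le]
  constructor <;> linarith

lemma Up (k : ℕ) : ∀ a b : Sq, |ofDigits a - ofDigits b| < (1 / 4) ^ k →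
    |F a - F b| ≤ 1024 * W k a ∧ W k b ≤ 1024 * W k a := by
  induction k with
  | zero =>
    intro a b _
    simp only [W, range_zero, prod_empty, abs_le]
    refine ⟨⟨?_, ?_⟩, ?_⟩ <;> linarith [F_le a, F_le b, F_nonneg a, F_nonneg b]
  | succ k ih =>
    intro a b h
    rw [W_succ', W_succ']
    have fin : |F a - F b| ≤ w0 ^ k → W k (sh a) = w0 ^ k → W k (sh b) = w0 ^ k →
        |F a - F b| ≤ 1024 * (w (a 0) * W k (sh a)) ∧
        w (b 0) * W k (sh b) ≤ 1024 * (w (a 0) * W k (sh a)) := by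
      intro s1 s2 s3
      rw [s2, s3]
      have p := pow_pos w0_pos k
      have := mul_le_mul_of_nonneg_right (w_ge (a 0)) p.le
      have := mul_le_mul_of_nonneg_right ((w_le (b 0)).trans w0_le) p.le
      constructor <;> linarith
    rw [abs_lt] at h
    rcases lt_trichotomy (a 0 : ℕ) (b 0) with h1 | h1 | h1
    · obtain ⟨s1, s2, s3⟩ := adj h1 (k := k) (by linarith)
      exact fin s1 s2 s3
    · have e : a 0 = b 0 := Fin.ext h1
      have a1 := V_step a
      have b1 := V_step b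
      rw [← e] at b1
      rw [pow_succ] at h
      obtain ⟨i1, i2⟩ := ih (sh a) (sh b) (abs_lt.mpr ⟨by linarith, by linarith⟩)
      rw [F_step a, F_step b, ← e, add_sub_add_left_eq_sub, ← mul_sub, abs_mul,
        abs_of_pos (w_pos _)]
      constructor <;> nlinarith [w_pos (a 0)]
    · obtain ⟨s1, s2, s3⟩ := adj h1 (k := k) (by linarith)
      exact fin (by rwa [abs_sub_comm]) s3 s2

lemma Lo (k : ℕ) : ∀ a b : Sq, (1 / 4) ^ k ≤ ofDigits b - ofDigits a →
    W k a ≤ 4096 * (F b - F a) ∧ W k b ≤ 4096 * (F b - F a) := by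
  have key : ∀ (k : ℕ) (a b : Sq), a 0 ≠ b 0 → (1 / 4) ^ k ≤ ofDigits b - ofDigits a →
      W k a ≤ 4096 * (F b - F a) ∧ W k b ≤ 4096 * (F b - F a) := by
    intro k a b h0 h
    suffices w0 ^ k ≤ 4096 * (F b - F a) from ⟨(W_le k a).trans this, (W_le k b).trans this⟩
    have a1 := V_step a
    have b1 := V_step b
    have := V1 (sh a)
    have := V0 (sh a)
    have := V1 (sh b)
    have := V0 (sh b)
    have := q_pos k
    have s3 := mul_nonneg (w_pos (a 0)).le (sub_nonneg.mpr (F_le (sh a)))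
    have s4 := mul_nonneg (w_pos (b 0)).le (F_nonneg (sh b))
    have h1 : (a 0 : ℕ) < b 0 := by
      by_contra h1
      have : (a 0 : ℕ) ≠ b 0 := fun e => h0 (Fin.ext e)
      have : (((b 0 : ℕ) + 1 : ℕ) : ℝ) ≤ (a 0 : ℕ) := by exact_mod_cast (by omega)
      push_cast at this
      linarith
    rw [F_step a, F_step b]
    by_cases h3 : (a 0 : ℕ) + 1 = b 0
    · have h4 : (((a 0 : ℕ) + 1 : ℕ) : ℝ) = (b 0 : ℕ) := by exact_mod_cast h3
      push_cast at h4
      rw [cum_adj h3]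
      have p := pow_pos w0_pos k
      have e : w0 ^ (k + 1) = 511 / 1024 * w0 ^ k := pow_succ' _ _
      by_cases h5 : (1 / 4) ^ k ≤ ofDigits (sh b)
      · have := mul_le_mul (w_ge (b 0)) (G0 k _ h5) (pow_pos w0_pos _).le (w_pos _).le
        linarith
      · have := mul_le_mul (w_ge (a 0)) (G1 k (sh a) (by linarith)) (pow_pos w0_pos _).le
          (w_pos _).le
        linarith
    · have := cum_far (i := a 0) (j := b 0) (by omega)
      linarith [p_le k]
  induction k with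
  | zero =>
    intro a b h
    refine key 0 a b (fun e => ?_) h
    have a1 := V_step a
    have b1 := V_step b
    rw [← e] at b1
    linarith [V0 (sh a), V1 (sh b)]
  | succ k ih =>
    intro a b h
    by_cases e : a 0 = b 0
    · have a1 := V_step a
      have b1 := V_step b
      rw [← e] at b1
      rw [pow_succ] at h
      obtain ⟨i1, i2⟩ := ih (sh a) (sh b) (by linarith)
      rw [F_step a, F_step b, W_succ', W_succ', ← e]
      constructor <;> nlinarith [w_pos (a 0)]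
    · exact key _ a b e h

lemma Lo' (k : ℕ) (a b : Sq) (h : (1 / 4) ^ k ≤ |ofDigits a - ofDigits b|) :
    W k a ≤ 4096 * |F a - F b| := by
  rcases le_abs.mp h with h | h
  · linarith [(Lo k b a h).2, le_abs_self (F a - F b)]
  · linarith [(Lo k a b (by linarith)).1, neg_abs_le (F a - F b)]

lemma F_prefix (k : ℕ) : ∀ a b : Sq, (∀ i < k, a i = b i) → |F a - F b| ≤ W k a := by
  induction k with
  | zero =>
    intro a b _
    simp only [W, range_zero, prod_empty, abs_le]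
    constructor <;> linarith [F_le a, F_le b, F_nonneg a, F_nonneg b]
  | succ k ih =>
    intro a b h
    rw [F_step a, F_step b, W_succ', ← h 0 (by omega), add_sub_add_left_eq_sub, ← mul_sub, abs_mul,
      abs_of_pos (w_pos _)]
    exact mul_le_mul_of_nonneg_left (ih _ _ fun i hi => h (i + 1) (by omega)) (w_pos _).le

noncomputable def h (l : ℕ) (a : Sq) : ℝ := ⨅ b : Sq, (|F a - F b| + W (2 * l) b)

lemma h_bdd (l : ℕ) (a : Sq) : BddBelow (Set.range fun b : Sq => |F a - F b| + W (2 * l) b) :=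
  ⟨0, by rintro _ ⟨b, rfl⟩; exact add_nonneg (abs_nonneg _) (W_pos _ _).le⟩

lemma h_le' (l : ℕ) (a b : Sq) : h l a ≤ |F a - F b| + W (2 * l) b := ciInf_le (h_bdd l a) b

lemma h_le (l : ℕ) (a : Sq) : h l a ≤ W (2 * l) a := by simpa using h_le' l a a

lemma h_lip (l : ℕ) (a b : Sq) : h l a ≤ h l b + |F a - F b| := by
  rw [← sub_le_iff_le_add]
  refine le_ciInf fun c => ?_
  linarith [h_le' l a c, abs_sub_le (F a) (F b) (F c)]

lemma h_anti {l l' : ℕ} (hl : l ≤ l') (a : Sq) : h l' a ≤ h l a :=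
  ciInf_mono (h_bdd _ _) fun b => add_le_add le_rfl (W_anti (by omega) b)

lemma h_ge (l : ℕ) (a : Sq) : W (2 * l) a ≤ 4096 * h l a := by
  rw [← div_le_iff₀' (by norm_num)]
  refine le_ciInf fun b => ?_
  have := W_pos (2 * l) b
  have := abs_nonneg (F a - F b)
  by_cases hc : |ofDigits a - ofDigits b| < (1 / 4) ^ (2 * l)
  · linarith [(Up _ b a (by rwa [abs_sub_comm])).2]
  · linarith [Lo' _ a b (not_lt.mp hc)]

lemma h_nonneg (l : ℕ) (a : Sq) : 0 ≤ h l a := by linarith [h_ge l a, W_pos (2 * l) a]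

end Pool.Agent.H.MP_ecb7d4_gt
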