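import Pool.Agent.H.MP_ecb7d4_gt.A

set_option autoImplicit false

namespace Pool.Agent.H.MP_ecb7d4_gt

open Real Finset PiNat MeasureTheory Filter Topology
open scoped ENNReal NNReal

lemma od_diff {b : ℕ} (x y : ℕ → Fin b) (l : ℕ) (hxy : ∀ i < l, x i = y i) :
    ofDigits y - ofDigits x = ((b : ℝ) ^ (l + 1))⁻¹ * (((y l : ℕ) : ℝ) - (x l : ℕ) +
      ofDigits (fun i => y (i + (l + 1))) - ofDigits (fun i => x (i + (l + 1)))) := by
  rw [ofDigits_eq_sum_add_ofDigits x (l + 1), ofDigits_eq_sum_add_ofDigits y (l + 1),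
    sum_range_succ, sum_range_succ]
  have : ∑ i ∈ range l, ofDigitsTerm x i = ∑ i ∈ range l, ofDigitsTerm y i :=
    sum_congr rfl fun i hi => by simp [ofDigitsTerm, hxy i (mem_range.mp hi)]
  rw [this]
  simp only [ofDigitsTerm]
  ring

lemma sep_even {x y : ℕ → Fin 16} (hx : ∀ i, (x i : ℕ) % 2 = 0) (hy : ∀ i, (y i : ℕ) % 2 = 0)
    (hne : x ≠ y) : (1 / 4 : ℝ) ^ (2 * firstDiff x y + 2) ≤ |ofDigits x - ofDigits y| := by
  have key : ∀ {x y : ℕ → Fin 16} (l : ℕ), (∀ i < l, x i = y i) → (x l : ℕ) + 2 ≤ y l →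
      (1 / 4 : ℝ) ^ (2 * l + 2) ≤ ofDigits y - ofDigits x := by
    intro x y l h1 h2
    rw [od_diff x y l h1]
    have e : (1 / 4 : ℝ) ^ (2 * l + 2) = (((16 : ℕ) : ℝ) ^ (l + 1))⁻¹ * 1 := by
      rw [show 2 * l + 2 = 2 * (l + 1) by ring, pow_mul, mul_one, ← inv_pow]; norm_num
    rw [e]
    refine mul_le_mul_of_nonneg_left ?_ (by positivity)
    have : (((x l : ℕ) + 2 : ℕ) : ℝ) ≤ (y l : ℕ) := by exact_mod_cast h2
    push_cast at this
    linarith [ofDigits_nonneg (fun i => y (i + (l + 1))), ofDigits_le_one (fun i => x (i + (l + 1)))]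
  have h1 : (x (firstDiff x y) : ℕ) ≠ y (firstDiff x y) := fun e =>
    apply_firstDiff_ne hne (Fin.ext e)
  have h2 := hx (firstDiff x y)
  have h3 := hy (firstDiff x y)
  have h4 : ∀ i < firstDiff x y, x i = y i := fun i hi => apply_eq_of_lt_firstDiff hi
  rcases lt_or_gt_of_ne h1 with h | h
  · exact (key _ h4 (by omega)).trans (by rw [abs_sub_comm]; exact le_abs_self _)
  · exact (key _ (fun i hi => (h4 i hi).symm) (by omega)).trans (le_abs_self _)

lemma sep_mid {x y : Sq} (hx : ∀ i, 1 ≤ (x i : ℕ) ∧ (x i : ℕ) ≤ 2)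
    (hy : ∀ i, 1 ≤ (y i : ℕ) ∧ (y i : ℕ) ≤ 2)
    (hne : x ≠ y) : (1 / 4 : ℝ) ^ (firstDiff x y + 2) ≤ |ofDigits x - ofDigits y| := by
  have key : ∀ {x y : Sq} (l : ℕ), (∀ i < l, x i = y i) → (x l : ℕ) + 1 ≤ y l →
      1 ≤ (y (l + 1) : ℕ) → (x (l + 1) : ℕ) ≤ 2 →
      (1 / 4 : ℝ) ^ (l + 2) ≤ ofDigits y - ofDigits x := by
    intro x y l h1 h2 h3 h4
    rw [od_diff x y l h1]
    have e : (1 / 4 : ℝ) ^ (l + 2) = (((4 : ℕ) : ℝ) ^ (l + 1))⁻¹ * (1 / 4) := by
      rw [pow_succ, ← inv_pow]; norm_num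
    rw [e]
    refine mul_le_mul_of_nonneg_left ?_ (by positivity)
    have : (((x l : ℕ) + 1 : ℕ) : ℝ) ≤ (y l : ℕ) := by exact_mod_cast h2
    push_cast at this
    have a1 := V_step (fun i => y (i + (l + 1)))
    have a2 := V_step (fun i => x (i + (l + 1)))
    simp only [zero_add] at a1 a2
    have : ((1 : ℕ) : ℝ) ≤ (y (l + 1) : ℕ) := by exact_mod_cast h3
    have : ((x (l + 1) : ℕ) : ℝ) ≤ (2 : ℕ) := by exact_mod_cast h4
    push_cast at *
    linarith [V0 (sh fun i => y (i + (l + 1))), V1 (sh fun i => x (i + (l + 1)))]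
  have h1 : (x (firstDiff x y) : ℕ) ≠ y (firstDiff x y) := fun e =>
    apply_firstDiff_ne hne (Fin.ext e)
  have h4 : ∀ i < firstDiff x y, x i = y i := fun i hi => apply_eq_of_lt_firstDiff hi
  rcases lt_or_gt_of_ne h1 with h | h
  · exact (key _ h4 h (hy _).1 (hx _).2).trans (by rw [abs_sub_comm]; exact le_abs_self _)
  · exact (key _ (fun i hi => (h4 i hi).symm) h (hx _).1 (hy _).2).trans (le_abs_self _)

open Classical in
noncomputable def H (x y : ℕ → Fin 16) (a : Sq) : ℝ := if x = y then 0 else h (firstDiff x y) a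

lemma H_nonneg (x y : ℕ → Fin 16) (a : Sq) : 0 ≤ H x y a := by
  unfold H; split_ifs; exacts [le_rfl, h_nonneg _ _]

lemma H_comm (x y : ℕ → Fin 16) (a : Sq) : H x y a = H y x a := by
  by_cases e : x = y
  · rw [e]
  · rw [H, H, if_neg e, if_neg (Ne.symm e), firstDiff_comm]

lemma H_lip (x y : ℕ → Fin 16) (a b : Sq) : H x y a ≤ H x y b + |F a - F b| := by
  unfold H; split_ifs
  · simp
  · exact h_lip _ _ _

lemma H_ultra (x y z : ℕ → Fin 16) (a : Sq) : H x z a ≤ H x y a ∨ H x z a ≤ H y z a := by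
  by_cases h1 : x = z
  · left; rw [H, if_pos h1]; exact H_nonneg _ _ _
  by_cases h2 : x = y
  · right; rw [h2]
  by_cases h3 : y = z
  · left; rw [h3]
  simp only [H, if_neg h1, if_neg h2, if_neg h3]
  rcases min_le_iff.mp (min_firstDiff_le x y z h1) with h | h
  · exact Or.inl (h_anti h a)
  · exact Or.inr (h_anti h a)

lemma H_le {x y : ℕ → Fin 16} {l : ℕ} (hl : ∀ i < l, x i = y i) (a : Sq) :
    H x y a ≤ W (2 * l) a := by
  unfold H; split_ifs with h1
  · exact (W_pos _ _).le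
  · refine (h_anti ?_ a).trans (h_le l a)
    by_contra h2
    exact apply_firstDiff_ne h1 (hl _ (not_le.mp h2))

def D : Finset (Fin 16 × Fin 4) :=
  univ.filter fun d => if d.2 = 0 ∨ d.2 = 3 then d.1 = 0 else (d.1 : ℕ) % 2 = 0

abbrev Cd := ℕ → {d // d ∈ D}

def uu (ω : Cd) : ℕ → Fin 16 := fun i => (ω i).1.1
def vv (ω : Cd) : Sq := fun i => (ω i).1.2

lemma uu_even (ω : Cd) (i : ℕ) : (uu ω i : ℕ) % 2 = 0 := by
  have := (mem_filter.mp (ω i).2).2
  unfold uu
  split_ifs at this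
  · rw [this]; rfl
  · exact this

noncomputable def pt (ω : Cd) : ℝ × ℝ := (ofDigits (uu ω), ofDigits (vv ω))

noncomputable def dd (p q : Cd) : ℝ :=
  max |F (vv p) - F (vv q)| (max (H (uu p) (uu q) (vv p)) (H (uu p) (uu q) (vv q)))

lemma dd_comm (p q : Cd) : dd p q = dd q p := by
  simp only [dd, abs_sub_comm (F (vv p)), H_comm (uu p), max_comm (H _ _ (vv p))]

lemma dd_1 (p q : Cd) : |F (vv p) - F (vv q)| ≤ dd p q := le_max_left _ _
lemma dd_2 (p q : Cd) : H (uu p) (uu q) (vv p) ≤ dd p q := (le_max_left _ _).trans (le_max_right _ _)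
lemma dd_3 (p q : Cd) : H (uu p) (uu q) (vv q) ≤ dd p q := (le_max_right _ _).trans (le_max_right _ _)
lemma dd_nonneg (p q : Cd) : 0 ≤ dd p q := (abs_nonneg _).trans (dd_1 p q)

lemma dd_tri (p q z : Cd) : dd p z ≤ dd p q + dd q z := by
  have := dd_nonneg p q
  have := dd_nonneg q z
  have := dd_1 p q
  have := dd_1 q z
  refine max_le (by linarith [abs_sub_le (F (vv p)) (F (vv q)) (F (vv z))]) (max_le ?_ ?_)
  · rcases H_ultra (uu p) (uu q) (uu z) (vv p) with h | h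
    · linarith [dd_2 p q]
    · linarith [dd_2 q z, H_lip (uu q) (uu z) (vv p) (vv q)]
  · rcases H_ultra (uu p) (uu q) (uu z) (vv z) with h | h
    · linarith [dd_3 p q, H_lip (uu p) (uu q) (vv z) (vv q), abs_sub_comm (F (vv z)) (F (vv q))]
    · linarith [dd_3 q z]

lemma dist_pt (p q : Cd) : dist (pt p) (pt q) =
    max |ofDigits (uu p) - ofDigits (uu q)| |ofDigits (vv p) - ofDigits (vv q)| := rfl

lemma lemA0 (k : ℕ) (p q : Cd) (hd : dist (pt p) (pt q) < (1 / 4) ^ k) :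
    dd p q ≤ 1024 ^ 2 * W k (vv p) := by
  rw [dist_pt, max_lt_iff] at hd
  obtain ⟨i1, i2⟩ := Up k _ _ hd.2
  have := W_pos k (vv p)
  have key : ∀ a, H (uu p) (uu q) a ≤ 1024 * W k a := by
    intro a
    unfold H
    split_ifs with h1
    · linarith [W_pos k a]
    · have h2 := (sep_even (uu_even p) (uu_even q) h1).trans_lt hd.1
      rw [pow_lt_pow_iff_right_of_lt_one₀ (by norm_num) (by norm_num)] at h2
      have := W_add_ge (2 * firstDiff (uu p) (uu q)) 1 a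
      have := W_anti (show k ≤ 2 * firstDiff (uu p) (uu q) + 1 by omega) a
      linarith [h_le (firstDiff (uu p) (uu q)) a]
  exact max_le (by linarith) (max_le (by linarith [key (vv p)]) (by linarith [key (vv q)]))

lemma lemA (k : ℕ) (p q : Cd) (hd : dist (pt p) (pt q) ≤ (1 / 4) ^ k) :
    dd p q ≤ 1024 ^ 3 * W k (vv p) := by
  cases k with
  | zero =>
    have e : ∀ a, W 0 a = 1 := fun a => by simp [W]
    have h1 := F_prefix 0 (vv p) (vv q) (by simp)
    have h2 := fun a => H_le (x := uu p) (y := uu q) (l := 0) (by simp) a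
    simp only [mul_zero, e] at h1 h2 ⊢
    exact max_le (by linarith) (max_le (by linarith [h2 (vv p)]) (by linarith [h2 (vv q)]))
  | succ k =>
    have := lemA0 k p q (hd.trans_lt (by rw [pow_succ]; linarith [q_pos k]))
    have := W_add_ge k 1 (vv p)
    linarith

lemma lemB (k : ℕ) (p q : Cd) (hd : (1 / 4) ^ k ≤ dist (pt p) (pt q)) :
    W k (vv p) ≤ 4096 * dd p q := by
  rw [dist_pt, le_max_iff] at hd
  rcases hd with hd | hd
  · have h1 : uu p ≠ uu q := fun e => by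
      rw [e, sub_self, abs_zero] at hd
      linarith [q_pos k]
    have h2 := hd.trans (abs_ofDigits_sub_ofDigits_le (x := uu p) (y := uu q)
      fun i hi => apply_eq_of_lt_firstDiff hi)
    have e : (((16 : ℕ) : ℝ) ^ firstDiff (uu p) (uu q))⁻¹ =
        (1 / 4) ^ (2 * firstDiff (uu p) (uu q)) := by
      rw [pow_mul, ← inv_pow]; norm_num
    rw [e, pow_le_pow_iff_right_of_lt_one₀ (by norm_num) (by norm_num)] at h2
    have h3 := dd_2 p q
    rw [H, if_neg h1] at h3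
    linarith [W_anti h2 (vv p), h_ge (firstDiff (uu p) (uu q)) (vv p)]
  · linarith [Lo' k _ _ hd, dd_1 p q]

lemma dist_le_one (p q : Cd) : dist (pt p) (pt q) ≤ 1 := by
  rw [dist_pt]
  refine max_le ?_ ?_
  · simpa using abs_ofDigits_sub_ofDigits_le (x := uu p) (y := uu q) (n := 0) (by simp)
  · simpa using abs_ofDigits_sub_ofDigits_le (x := vv p) (y := vv q) (n := 0) (by simp)

lemma qs (x a b : Cd) (t : ℝ) (ha : 0 < dist (pt x) (pt a))
    (ht : dist (pt x) (pt a) ≤ t * dist (pt x) (pt b)) (t0 : 0 ≤ t) :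
    dd x a ≤ 2 ^ 62 * (√t + t ^ 5) * dd x b := by
  have hb : 0 < dist (pt x) (pt b) := by
    refine lt_of_le_of_ne dist_nonneg fun e => ?_
    rw [← e, mul_zero] at ht
    linarith
  obtain ⟨i, i1, i2⟩ := exists_nat_pow_near_of_lt_one ha (dist_le_one x a)
    (show (0 : ℝ) < 1 / 4 by norm_num) (by norm_num)
  obtain ⟨j, j1, j2⟩ := exists_nat_pow_near_of_lt_one hb (dist_le_one x b)
    (show (0 : ℝ) < 1 / 4 by norm_num) (by norm_num)
  have h1 := lemA i x a i2
  have h2 := lemB (j + 1) x b j1.le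
  have h3 : (1 / 4 : ℝ) ^ (i + 1) ≤ t * (1 / 4) ^ j :=
    i1.le.trans (ht.trans (mul_le_mul_of_nonneg_left j2 t0))
  have s0 := Real.sqrt_nonneg t
  have s1 := pow_nonneg t0 5
  have d0 := dd_nonneg x b
  have hW := W_pos (j + 1) (vv x)
  have key : W i (vv x) ≤ 2 ^ 20 * (√t + t ^ 5) * W (j + 1) (vv x) := by
    rcases le_total (j + 1) i with h | h
    · obtain ⟨k, rfl⟩ := Nat.exists_eq_add_of_le h
      refine (W_add_le _ _ _).trans (mul_le_mul_of_nonneg_right ?_ hW.le)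
      have e1 : (1 / 4 : ℝ) ^ (j + 1 + k + 1) = ((1 / 2) ^ k / 4) ^ 2 * (1 / 4) ^ j := by
        rw [div_pow ((1 / 2 : ℝ) ^ k), ← pow_mul, mul_comm k 2, pow_mul]
        norm_num
        ring
      rw [e1] at h3
      have h4 := Real.le_sqrt_of_sq_le (le_of_mul_le_mul_right h3 (q_pos j))
      have h5 := pow_le_pow_left₀ w0_pos.le w0_le k
      linarith
    · obtain ⟨k, hk⟩ := Nat.exists_eq_add_of_le h
      rw [hk] at hW ⊢
      refine (W_add_ge i k _).trans (mul_le_mul_of_nonneg_right ?_ hW.le)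
      have e1 : (4 : ℝ) ^ k * (1 / 4) ^ (j + 1) = (1 / 4) ^ i := by
        rw [hk, pow_add, mul_left_comm, ← mul_pow]; norm_num
      have h4 : (4 : ℝ) ^ k ≤ 16 * t := by
        refine le_of_mul_le_mul_right ?_ (q_pos (j + 1))
        rw [e1, pow_succ] at *
        linarith
      have h5 := pow_le_pow_left₀ (by positivity) h4 5
      have e2 : ((4 : ℝ) ^ k) ^ 5 = 1024 ^ k := by
        rw [← pow_mul, mul_comm, pow_mul]; norm_num
      rw [e2, mul_pow] at h5
      linarith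
  have := mul_le_mul_of_nonneg_left h2 (show 0 ≤ 2 ^ 20 * (√t + t ^ 5) by positivity)
  linarith

def KK : Set (ℝ × ℝ) := Set.range pt

lemma KK_compact : IsCompact KK := by
  refine isCompact_range (Continuous.prodMk (continuous_ofDigits.comp ?_)
    (continuous_ofDigits.comp ?_))
  · unfold uu; fun_prop
  · unfold vv; fun_prop

lemma pt_step (ω : Cd) : pt ω = (((pt (sh ω)).1 + (((ω 0).1.1 : ℕ) : ℝ)) / ((16 : ℕ) : ℝ),
    ((pt (sh ω)).2 + (((ω 0).1.2 : ℕ) : ℝ)) / ((4 : ℕ) : ℝ)) :=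
  Prod.ext (od_step (uu ω)) (od_step (vv ω))

lemma KK_eq : KK = ⋃ d ∈ D, (fun p : ℝ × ℝ =>
    ((p.1 + ((d.1 : ℕ) : ℝ)) / ((16 : ℕ) : ℝ), (p.2 + ((d.2 : ℕ) : ℝ)) / ((4 : ℕ) : ℝ))) '' KK := by
  ext p
  simp only [Set.mem_iUnion, Set.mem_image]
  constructor
  · rintro ⟨ω, rfl⟩
    exact ⟨(ω 0).1, (ω 0).2, _, ⟨sh ω, rfl⟩, (pt_step ω).symm⟩
  · rintro ⟨d, hd, _, ⟨ω, rfl⟩, rfl⟩
    refine ⟨fun n => Nat.casesOn n ⟨d, hd⟩ ω, (pt_step _).trans ?_⟩
    rfl

noncomputable def cd (p : KK) : Cd := p.2.choose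

lemma pt_cd (p : KK) : pt (cd p) = p := p.2.choose_spec

lemma dist_cd (p q : KK) : dist p q = dist (pt (cd p)) (pt (cd q)) := by
  rw [pt_cd, pt_cd]; rfl

def Y : Type := KK

def toY (p : KK) : Y := p

noncomputable instance : MetricSpace Y where
  dist p q := dd (cd p) (cd q)
  dist_self p := by simp [dd, H]
  dist_comm p q := dd_comm _ _
  dist_triangle p q z := dd_tri _ _ _
  eq_of_dist_eq_zero := by
    intro (p : KK) (q : KK) h
    by_contra hne
    have h1 : 0 < dist p q := dist_pos.mpr hne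
    rw [dist_cd] at h1
    obtain ⟨k, hk⟩ := exists_pow_lt_of_lt_one h1 (show (1 / 4 : ℝ) < 1 by norm_num)
    have h2 := lemB k _ _ hk.le
    have h3 : dd (cd p) (cd q) = 0 := h
    linarith [W_pos k (vv (cd p))]

lemma dist_Y (p q : KK) : dist (toY p) (toY q) = dd (cd p) (cd q) := rfl

end Pool.Agent.H.MP_ecb7d4_gt
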