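import Pool.Agent.H.MP_ecb7d4_gt.B

set_option autoImplicit false

namespace Pool.Agent.H.MP_ecb7d4_gt

open Real Finset PiNat MeasureTheory Filter Topology
open scoped ENNReal NNReal

noncomputable def ws (j : Fin 4) : ℝ := w j ^ (6 / 5 : ℝ)

lemma ws_nonneg (j : Fin 4) : 0 ≤ ws j := Real.rpow_nonneg (w_pos j).le _

lemma rp_le {x y : ℝ} (hx : 0 ≤ x) (hy : 0 ≤ y) (h : x ^ 6 ≤ y ^ 5) : x ^ (6 / 5 : ℝ) ≤ y := by
  refine le_of_pow_le_pow_left₀ (n := 5) (by norm_num) hy ?_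
  rw [← Real.rpow_natCast, ← Real.rpow_mul hx]
  norm_num
  exact h

lemma ws_le (j : Fin 4) : ws j ≤ if j = 0 ∨ j = 3 then 44 / 100 else 1 / 4096 := by
  have a : w0 ^ (6 / 5 : ℝ) ≤ 44 / 100 := rp_le w0_pos.le (by norm_num) (by norm_num [w0])
  have b : (1 / 1024 : ℝ) ^ (6 / 5 : ℝ) ≤ 1 / 4096 :=
    rp_le (by norm_num) (by norm_num) (by norm_num)
  fin_cases j
  · exact a
  · exact b
  · exact b
  · exact a

lemma sum_ws : ∑ j, ws j ≤ 1 := by
  refine (sum_le_sum fun j _ => ws_le j).trans ?_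
  simp [Fin.sum_univ_four]
  norm_num

lemma sum_wsD : ∑ d : {d // d ∈ D}, ws d.1.2 ≤ 1 := by
  rw [sum_coe_sort D (fun d => ws d.2)]
  refine (sum_le_sum fun d _ => ws_le d.2).trans ?_
  rw [sum_ite, sum_const, sum_const,
    show (D.filter fun d => d.2 = 0 ∨ d.2 = 3).card = 2 by decide,
    show (D.filter fun d => ¬(d.2 = 0 ∨ d.2 = 3)).card = 16 by decide]
  norm_num

lemma W_two (l : ℕ) (a : Sq) :
    W (2 * l) a = (∏ i : Fin l, w (a i)) * ∏ i : Fin l, w (a (l + i)) := by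
  rw [W, two_mul, prod_range_add, ← Fin.prod_univ_eq_prod_range (fun i => w (a i)),
    ← Fin.prod_univ_eq_prod_range (fun i => w (a (l + i)))]

lemma dim_Y : dimH (Set.univ : Set Y) ≤ (6 / 5 : ℝ≥0) := by
  borelize Y
  refine dimH_le_of_hausdorffMeasure_ne_top (ne_top_of_le_ne_top ENNReal.one_ne_top ?_)
  let t : ∀ l : ℕ, (Fin l → {d // d ∈ D}) × (Fin l → Fin 4) → Set Y := fun l c =>
    {p | (∀ i : Fin l, cd p i = c.1 i) ∧ ∀ i : Fin l, vv (cd p) (l + i) = c.2 i}
  have hd : ∀ l c, Metric.ediam (t l c) ≤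
      ENNReal.ofReal ((∏ i : Fin l, w (c.1 i).1.2) * ∏ i : Fin l, w (c.2 i)) := by
    intro l c
    refine Metric.ediam_le_of_forall_dist_le ?_
    have e : ∀ p ∈ t l c, W (2 * l) (vv (cd p)) =
        (∏ i : Fin l, w (c.1 i).1.2) * ∏ i : Fin l, w (c.2 i) := fun p hp => by
      rw [W_two]
      simp only [hp.2, ← hp.1]
      rfl
    intro p hp q hq
    have h1 : ∀ i < l, uu (cd p) i = uu (cd q) i := fun i hi => by
      unfold uu
      rw [hp.1 ⟨i, hi⟩, hq.1 ⟨i, hi⟩]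
    have h2 : ∀ i < 2 * l, vv (cd p) i = vv (cd q) i := fun i hi => by
      by_cases h : i < l
      · unfold vv
        rw [hp.1 ⟨i, h⟩, hq.1 ⟨i, h⟩]
      · have := (hp.2 ⟨i - l, by omega⟩).trans (hq.2 ⟨i - l, by omega⟩).symm
        simpa only [Nat.add_sub_of_le (not_lt.mp h)] using this
    exact max_le ((F_prefix _ _ _ h2).trans (e p hp).le)
      (max_le ((H_le h1 _).trans (e p hp).le) ((H_le h1 _).trans (e q hq).le))
  refine (Measure.hausdorffMeasure_le_liminf_sum _ _ (l := atTop)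
    (fun l => ENNReal.ofReal (w0 ^ l)) ?_ t (Eventually.of_forall fun l c => ?_)
    (Eventually.of_forall fun l p _ => ?_)).trans ?_
  · simpa using ENNReal.tendsto_ofReal
      (tendsto_pow_atTop_nhds_zero_of_lt_one w0_pos.le (w0_le.trans_lt (by norm_num)))
  · refine (hd l c).trans (ENNReal.ofReal_le_ofReal ?_)
    calc _ ≤ (∏ _i : Fin l, w0) * ∏ _i : Fin l, (1 : ℝ) :=
          mul_le_mul (prod_le_prod (fun i _ => (w_pos _).le) fun i _ => w_le _)
            (prod_le_prod (fun i _ => (w_pos _).le) fun i _ =>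
              (w_le _).trans (w0_le.trans (by norm_num)))
            (prod_nonneg fun i _ => (w_pos _).le) (prod_nonneg fun i _ => w0_pos.le)
      _ = _ := by simp
  · exact Set.mem_iUnion.mpr ⟨(fun i => cd p i, fun i => vv (cd p) (l + i)), fun _ => rfl,
      fun _ => rfl⟩
  · refine liminf_le_of_frequently_le' (Frequently.of_forall fun l => ?_)
    calc _ ≤ ∑ c : (Fin l → {d // d ∈ D}) × (Fin l → Fin 4),
          ENNReal.ofReal ((∏ i : Fin l, ws (c.1 i).1.2) * ∏ i : Fin l, ws (c.2 i)) := by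
          refine sum_le_sum fun c _ => (ENNReal.rpow_le_rpow (hd l c) (by positivity)).trans ?_
          have p1 : 0 ≤ ∏ i : Fin l, w (c.1 i).1.2 := prod_nonneg fun i _ => (w_pos _).le
          have p2 : 0 ≤ ∏ i : Fin l, w (c.2 i) := prod_nonneg fun i _ => (w_pos _).le
          rw [ENNReal.ofReal_rpow_of_nonneg (mul_nonneg p1 p2) (by positivity),
            Real.mul_rpow p1 p2, ← Real.finsetProd_rpow _ _ fun i _ => (w_pos _).le,
            ← Real.finsetProd_rpow _ _ fun i _ => (w_pos _).le]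
          simp [ws]
      _ = ENNReal.ofReal ((∑ d : {d // d ∈ D}, ws d.1.2) ^ l * (∑ j, ws j) ^ l) := by
          rw [← ENNReal.ofReal_sum_of_nonneg fun c _ => mul_nonneg
            (prod_nonneg fun i _ => ws_nonneg _) (prod_nonneg fun i _ => ws_nonneg _),
            Fintype.sum_pow, Fintype.sum_pow, sum_mul_sum, Fintype.sum_prod_type]
      _ ≤ 1 := ENNReal.ofReal_le_one.mpr (mul_le_one₀
          (pow_le_one₀ (sum_nonneg fun _ _ => ws_nonneg _) sum_wsD)
          (pow_nonneg (sum_nonneg fun _ _ => ws_nonneg _) _)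
          (pow_le_one₀ (sum_nonneg fun _ _ => ws_nonneg _) sum_ws))

def enc (d : ℕ → Fin 32) : Cd := fun n =>
  ⟨(⟨2 * (d n % 8), by omega⟩,
    ⟨if n % 2 = 0 then 1 + (d (n / 2) / 8) % 2 else 1 + d (n / 2) / 16, by
      split_ifs <;> omega⟩), by
    simp only [D, mem_filter, mem_univ, true_and, Fin.ext_iff]
    rw [if_neg]
    · omega
    · split_ifs <;> simp <;> omega⟩

lemma enc_mid (d : ℕ → Fin 32) (i : ℕ) : 1 ≤ (vv (enc d) i : ℕ) ∧ (vv (enc d) i : ℕ) ≤ 2 := by
  simp only [vv, enc]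
  split_ifs <;> omega

lemma holder (d d' : ℕ → Fin 32) :
    |ofDigits d - ofDigits d'| ≤ 1024 * dist (pt (enc d)) (pt (enc d')) ^ (5 / 4 : ℝ) := by
  by_cases hne : d = d'
  · rw [hne, sub_self, abs_zero]; positivity
  have h1 := abs_ofDigits_sub_ofDigits_le (x := d) (y := d') fun i hi => apply_eq_of_lt_firstDiff hi
  have h2 : (d (firstDiff d d') : ℕ) ≠ d' (firstDiff d d') := fun e =>
    apply_firstDiff_ne hne (Fin.ext e)
  generalize firstDiff d d' = l at h1 h2
  have fd : ∀ {X : Type} {x y : ℕ → X} (i : ℕ), x i ≠ y i → x ≠ y ∧ firstDiff x y ≤ i :=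
    fun i hi => ⟨fun e => hi (by rw [e]), not_lt.mp fun h => hi (apply_eq_of_lt_firstDiff h)⟩
  have h3 : (1 / 4 : ℝ) ^ (2 * l + 4) ≤ dist (pt (enc d)) (pt (enc d')) := by
    rw [dist_pt]
    by_cases c1 : uu (enc d) l = uu (enc d') l
    · have hv : ∀ i ≤ 2 * l + 1, vv (enc d) i ≠ vv (enc d') i →
          (1 / 4 : ℝ) ^ (2 * l + 4) ≤ |ofDigits (vv (enc d)) - ofDigits (vv (enc d'))| := by
        intro i hi h
        obtain ⟨s1, s2⟩ := fd i h
        exact (pow_le_pow_of_le_one (by norm_num) (by norm_num) (by omega)).trans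
          (sep_mid (enc_mid d) (enc_mid d') s1)
      refine le_trans ?_ (le_max_right _ _)
      by_cases c2 : vv (enc d) (2 * l) = vv (enc d') (2 * l)
      · refine hv (2 * l + 1) le_rfl fun c3 => h2 ?_
        have e1 : 2 * l / 2 = l := by omega
        have e2 : (2 * l + 1) / 2 = l := by omega
        have e3 : 2 * l % 2 = 0 := by omega
        have e4 : ¬ (2 * l + 1) % 2 = 0 := by omega
        simp only [uu, vv, enc, Fin.ext_iff, e1, e2, e3, e4, if_true, if_false] at c1 c2 c3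
        omega
      · exact hv _ (by omega) c2
    · obtain ⟨s1, s2⟩ := fd l c1
      exact ((pow_le_pow_of_le_one (by norm_num) (by norm_num) (by omega)).trans
        (sep_even (uu_even _) (uu_even _) s1)).trans (le_max_left _ _)
  have h4 := Real.rpow_le_rpow (by positivity) h3 (show (0 : ℝ) ≤ 5 / 4 by norm_num)
  have e : ((1 / 4 : ℝ) ^ (2 * l + 4)) ^ (5 / 4 : ℝ) = (((32 : ℕ) : ℝ) ^ l)⁻¹ / 1024 := by
    have : (1 / 4 : ℝ) ^ (2 * l + 4) = ((1 / 2) ^ (l + 2)) ^ 4 := by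
      rw [← pow_mul, mul_comm (l + 2), pow_mul, show 2 * l + 4 = 2 * (l + 2) by ring, pow_mul]
      norm_num
    rw [this, ← Real.rpow_natCast _ 4, ← Real.rpow_mul (by positivity),
      show ((4 : ℕ) : ℝ) * (5 / 4) = (5 : ℕ) by norm_num, Real.rpow_natCast, ← pow_mul,
      mul_comm, pow_mul, pow_add, ← inv_pow]
    norm_num
    ring
  rw [e] at h4
  linarith

lemma dim_K : ((5 / 4 : ℝ≥0) : ℝ≥0∞) ≤ dimH (Set.univ : Set KK) := by
  let ψ : (ℕ → Fin 32) → KK := fun d => ⟨pt (enc d), _, rfl⟩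
  let G : KK → ℝ := fun p => ofDigits (Function.invFun ψ p)
  have hG : ∀ d, G (ψ d) = ofDigits d := fun d => by
    have h1 : ψ (Function.invFun ψ (ψ d)) = ψ d := Function.invFun_eq ⟨d, rfl⟩
    have h2 := holder (Function.invFun ψ (ψ d)) d
    rw [show pt (enc (Function.invFun ψ (ψ d))) = pt (enc d) from congrArg Subtype.val h1,
      dist_self, Real.zero_rpow (by norm_num), mul_zero, abs_nonpos_iff, sub_eq_zero] at h2
    exact h2
  have hH : HolderOnWith 1024 (5 / 4) G (Set.range ψ) := by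
    rintro _ ⟨d, rfl⟩ _ ⟨d', rfl⟩
    rw [hG, hG, edist_dist, edist_dist, ENNReal.ofReal_rpow_of_nonneg dist_nonneg (by positivity),
      ← ENNReal.ofReal_coe_nnreal, ← ENNReal.ofReal_mul (by positivity)]
    refine ENNReal.ofReal_le_ofReal ?_
    push_cast
    exact holder d d'
  have h1 := hH.dimH_image_le (by norm_num)
  have h2 : dimH (Set.Icc (0 : ℝ) 1) = 1 := by
    rw [Real.dimH_of_nonempty_interior (by simp)]; simp
  have h3 : Set.Icc (0 : ℝ) 1 ⊆ G '' Set.range ψ := fun y hy => by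
    obtain ⟨d, -, rfl⟩ := ofDigits_SurjOn (b := 32) (by norm_num) hy
    exact ⟨_, ⟨d, rfl⟩, hG d⟩
  have h4 := (h2.ge.trans (dimH_mono h3)).trans h1
  rw [ENNReal.le_div_iff_mul_le (by simp) (Or.inl ENNReal.coe_ne_top), one_mul] at h4
  exact h4.trans (dimH_mono (Set.subset_univ _))

end Pool.Agent.H.MP_ecb7d4_gt
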